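import Mathlib
import Pool.Agent.H98.AlohaFinal

open scoped Topology ENNReal
open Filter Set MeasureTheory

namespace Pool.Agent.Results.MP_b612d4_pr.Unstable

open Pool.Agent.H98.Aloha

/-- The class `𝓗` of functions `h : [1,∞) → [0,∞)` with `h(1) = 0`, `h` non-decreasing with
`h(x) → ∞`, `x - h(x)` non-decreasing with `x - h(x) → ∞`, and `h(x)/x → 0`
(only the values on `[1,∞)` matter). -/
structure InH (h : ℝ → ℝ) : Prop where
  nonneg : ∀ x, 1 ≤ x → 0 ≤ h x
  at_one : h 1 = 0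
  mono : MonotoneOn h (Ici 1)
  tendsto : Tendsto h atTop atTop
  sub_mono : MonotoneOn (fun x => x - h x) (Ici 1)
  sub_tendsto : Tendsto (fun x => x - h x) atTop atTop
  div_tendsto : Tendsto (fun x => h x / x) atTop (𝓝 0)

/-- The class `𝓔_h` of functions `ε : [1,∞) → (0,1/2]` with `ε(x) → 0` and `h(x) ε(x)² → ∞`
(only the values on `[1,∞)` matter). -/
structure InE (h ε : ℝ → ℝ) : Prop where
  pos : ∀ x, 1 ≤ x → 0 < ε x
  le_half : ∀ x, 1 ≤ x → ε x ≤ 1 / 2
  tendsto : Tendsto ε atTop (𝓝 0)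
  mul_tendsto : Tendsto (fun x => h x * ε x ^ 2) atTop atTop

/-- The chain `(N_n,S_n)` of the protocol `A_3(C,h,1-ε)` with arrival law `ν` is Harris-ergodic:
there is a probability measure `μ` such that, from every initial value `(N_1,S_1)` with
`N_1 ∈ ℕ`, `S_1 ≥ 1`, the law of `(N_n,S_n)` converges to `μ` in total variation. -/
def HarrisErgodic (C : ℝ) (h ε : ℝ → ℝ) (ν : PMF ℕ) : Prop :=
  ∃ μ : Measure (ℕ × ℝ), IsProbabilityMeasure μ ∧ ∀ x : ℕ × ℝ, 1 ≤ x.2 →
    Tendsto (fun n : ℕ => ⨆ A : {A : Set (ℕ × ℝ) // MeasurableSet A},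
      |((law C h ε ν x n).toMeasure A.1).toReal - (μ A.1).toReal|) atTop (𝓝 0)

lemma inH_hh : InH hh where
  nonneg x hx := hh_nonneg hx
  at_one := by simp [hh]
  mono := by
    intro x hx y _ hxy
    simp only [mem_Ici] at hx
    unfold hh
    have := Real.rpow_le_rpow (by linarith : (0:ℝ) ≤ x) hxy (by norm_num : (0:ℝ) ≤ 3 / 4)
    linarith
  tendsto := by
    unfold hh
    exact tendsto_atTop_add_const_right _ _ (tendsto_rpow_atTop (by norm_num))
  sub_mono := by
    intro x hx y hy hxy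
    simp only [mem_Ici] at hx hy
    have hx0 : 0 < x := by linarith
    have hy0 : 0 < y := by linarith
    unfold hh
    simp only
    -- y^(3/4) ≤ x^(3/4) + (y - x), using the tangent-type bound through y/x
    have h1 : y ^ (3 / 4 : ℝ) ≤ x ^ (3 / 4 : ℝ) + (y - x) := by
      have hr : y = x * (y / x) := by field_simp
      have hr1 : 1 ≤ y / x := by rw [le_div_iff₀ hx0]; linarith
      have h2 : (y / x) ^ (3 / 4 : ℝ) ≤ y / x := by
        calc (y / x) ^ (3 / 4 : ℝ) ≤ (y / x) ^ (1 : ℝ) :=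
              Real.rpow_le_rpow_of_exponent_le hr1 (by norm_num)
          _ = y / x := Real.rpow_one _
      have h3 : y ^ (3 / 4 : ℝ) = x ^ (3 / 4 : ℝ) * (y / x) ^ (3 / 4 : ℝ) := by
        rw [← Real.mul_rpow hx0.le (by positivity), ← hr]
      have h4 : x ^ (3 / 4 : ℝ) ≤ x := rpow_le_self' hx
      have h5 : 0 ≤ x ^ (3 / 4 : ℝ) := by positivity
      rw [h3]
      calc x ^ (3 / 4 : ℝ) * (y / x) ^ (3 / 4 : ℝ) ≤ x ^ (3 / 4 : ℝ) * (y / x) := by gcongr
        _ = x ^ (3 / 4 : ℝ) + x ^ (3 / 4 : ℝ) * (y / x - 1) := by ring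
        _ ≤ x ^ (3 / 4 : ℝ) + x * (y / x - 1) := by
            have : 0 ≤ y / x - 1 := by linarith
            gcongr
        _ = x ^ (3 / 4 : ℝ) + (y - x) := by field_simp
    linarith
  sub_tendsto := by
    have h1 : Tendsto (fun x : ℝ => x ^ (3 / 4 : ℝ)) atTop atTop := tendsto_rpow_atTop (by norm_num)
    have h2 : Tendsto (fun x : ℝ => x ^ (1 / 4 : ℝ) - 1) atTop atTop :=
      tendsto_atTop_add_const_right _ _ (tendsto_rpow_atTop (by norm_num))
    have h3 := (h1.atTop_mul_atTop₀ h2)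
    refine tendsto_atTop_mono' _ ?_ h3
    filter_upwards [eventually_ge_atTop 1] with x hx
    have hx0 : 0 < x := by linarith
    have h4 : x ^ (3 / 4 : ℝ) * x ^ (1 / 4 : ℝ) = x := by
      rw [← Real.rpow_add hx0]; norm_num
    unfold hh
    have h5 : x ^ (3 / 4 : ℝ) * (x ^ (1 / 4 : ℝ) - 1) = x - x ^ (3 / 4 : ℝ) := by
      rw [mul_sub, h4, mul_one]
    rw [h5]
    linarith
  div_tendsto := by
    have h1 := tendsto_rpow_neg_atTop (by norm_num : (0:ℝ) < 1 / 4)
    have h2 : Tendsto (fun x : ℝ => x⁻¹) atTop (𝓝 0) := tendsto_inv_atTop_zero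
    have h3 := h1.sub h2
    rw [sub_zero] at h3
    refine h3.congr' ?_
    filter_upwards [eventually_gt_atTop 0] with x hx
    unfold hh
    have e1 : x ^ (-(1 / 4) : ℝ) = x ^ (3 / 4 : ℝ) / x := by
      rw [eq_div_iff hx.ne']
      nth_rewrite 2 [← Real.rpow_one x]
      rw [← Real.rpow_add hx]
      norm_num
    rw [sub_div, e1, one_div]

lemma inE_ee : InE hh ee where
  pos x hx := ee_pos hx
  le_half x hx := ee_le hx
  tendsto := by
    have h1 := (tendsto_rpow_neg_atTop (by norm_num : (0:ℝ) < 1 / 3)).div_const 2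
    rw [zero_div] at h1
    exact h1
  mul_tendsto := by
    have h1 : Tendsto (fun x : ℝ => x ^ (1 / 12 : ℝ) / 4) atTop atTop :=
      (tendsto_rpow_atTop (by norm_num)).atTop_div_const (by norm_num)
    have h2 : Tendsto (fun x : ℝ => x ^ (1 / 12 : ℝ) / 4 - 1 / 4) atTop atTop :=
      tendsto_atTop_add_const_right _ _ h1
    refine tendsto_atTop_mono' _ ?_ h2
    filter_upwards [eventually_ge_atTop 1] with x hx
    have hx0 : 0 < x := by linarith
    have e1 : (x ^ (-(1 / 3) : ℝ) / 2) ^ 2 = x ^ (-(2 / 3) : ℝ) / 4 := by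
      rw [div_pow, ← Real.rpow_natCast, ← Real.rpow_mul hx0.le]; norm_num
    have e2 : x ^ (3 / 4 : ℝ) * x ^ (-(2 / 3) : ℝ) = x ^ (1 / 12 : ℝ) := by
      rw [← Real.rpow_add hx0]; norm_num
    have e3 : x ^ (-(2 / 3) : ℝ) ≤ 1 := Real.rpow_le_one_of_one_le_of_nonpos hx (by norm_num)
    unfold hh ee
    rw [e1]
    have e4 : (x ^ (3 / 4 : ℝ) - 1) * (x ^ (-(2 / 3) : ℝ) / 4)
        = x ^ (1 / 12 : ℝ) / 4 - x ^ (-(2 / 3) : ℝ) / 4 := by
      rw [← e2]; ring
    rw [e4]
    linarith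

/-- **The conjecture fails.** The functions `h(x) = x^(3/4) - 1` and `ε(x) = x^(-1/3) / 2` satisfy
`h ∈ 𝓗` and `ε ∈ 𝓔_h`, and for every `C > 0` and every arrival law with positive finite mean
`lam` (in particular for every `lam < 1/e`) the chain of the protocol `A_3(C,h,1-ε)` is not
Harris-ergodic; moreover, from every initial value and for every `K`, the expected total time
during which at most `K` messages are present is finite, so the number of messages tends to
infinity. -/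
theorem result :
    InH hh ∧ InE hh ee ∧
      ∀ (C : ℝ) (ν : PMF ℕ) (lam : ℝ), 0 < C → 0 < lam →
        ∑' k, ν k * (k : ℝ≥0∞) = ENNReal.ofReal lam →
        ¬ HarrisErgodic C hh ee ν ∧
        ∀ x : ℕ × ℝ, 1 ≤ x.2 → ∀ K : ℕ,
          ∑' n, (law C hh ee ν x n).toMeasure {y | y.1 ≤ K} ≠ ⊤ := by
  refine ⟨inH_hh, inE_ee, ?_⟩
  intro C ν lam hC hlam hmean
  have hν : ν 0 ≠ 1 := by
    intro h0
    have hsup : ∀ k, k ≠ 0 → ν k = 0 := by
      have := (PMF.apply_eq_one_iff ν 0).1 h0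
      intro k hk
      by_contra hne
      have : k ∈ ν.support := (PMF.mem_support_iff ν k).2 hne
      rw [(PMF.apply_eq_one_iff ν 0).1 h0] at this
      exact hk (by simpa using this)
    have : ∑' k, ν k * (k : ℝ≥0∞) = 0 := by
      rw [ENNReal.tsum_eq_zero]
      intro k
      by_cases hk : k = 0
      · simp [hk]
      · simp [hsup k hk]
    rw [this] at hmean
    have := ENNReal.ofReal_pos.2 hlam
    rw [← hmean] at this
    exact lt_irrefl _ this
  have htr := fun x hx K => transient hC ν hν x hx K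
  refine ⟨?_, htr⟩
  rintro ⟨μ, hμ, hconv⟩
  -- the limit measure gives no mass to `{N ≤ K}`
  have hzero : ∀ K : ℕ, μ {y : ℕ × ℝ | y.1 ≤ K} = 0 := by
    intro K
    have hx : (1:ℝ) ≤ ((0, 1) : ℕ × ℝ).2 := le_rfl
    have h1 := ENNReal.tendsto_atTop_zero_of_tsum_ne_top (htr (0, 1) hx K)
    have h2 : Tendsto (fun n => ((law C hh ee ν (0, 1) n).toMeasure
        {y : ℕ × ℝ | y.1 ≤ K}).toReal) atTop (𝓝 0) := by
      have := (ENNReal.tendsto_toReal ENNReal.zero_ne_top).comp h1
      rw [ENNReal.toReal_zero] at this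
      exact this
    have h3 := hconv (0, 1) hx
    have hbdd : ∀ n, BddAbove (Set.range fun A : {A : Set (ℕ × ℝ) // MeasurableSet A} =>
        |((law C hh ee ν (0, 1) n).toMeasure A.1).toReal - (μ A.1).toReal|) := by
      intro n
      refine ⟨1, ?_⟩
      rintro _ ⟨A, rfl⟩
      have ha : ((law C hh ee ν (0, 1) n).toMeasure A.1).toReal ≤ 1 := by
        have := prob_le_one (μ := (law C hh ee ν (0, 1) n).toMeasure) (s := A.1)
        have := ENNReal.toReal_mono ENNReal.one_ne_top this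
        simpa using this
      have hb : (μ A.1).toReal ≤ 1 := by
        have := prob_le_one (μ := μ) (s := A.1)
        have := ENNReal.toReal_mono ENNReal.one_ne_top this
        simpa using this
      have ha0 : 0 ≤ ((law C hh ee ν (0, 1) n).toMeasure A.1).toReal := ENNReal.toReal_nonneg
      have hb0 : 0 ≤ (μ A.1).toReal := ENNReal.toReal_nonneg
      simp only
      rw [abs_le]
      constructor <;> linarith
    have h4 : Tendsto (fun n => |((law C hh ee ν (0, 1) n).toMeasure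
        {y : ℕ × ℝ | y.1 ≤ K}).toReal - (μ {y : ℕ × ℝ | y.1 ≤ K}).toReal|) atTop (𝓝 0) := by
      refine squeeze_zero (fun n => abs_nonneg _) (fun n => ?_) h3
      exact le_ciSup (hbdd n) ⟨{y : ℕ × ℝ | y.1 ≤ K}, measurableSet_fewer K⟩
    have h5 : Tendsto (fun n => |((law C hh ee ν (0, 1) n).toMeasure
        {y : ℕ × ℝ | y.1 ≤ K}).toReal - (μ {y : ℕ × ℝ | y.1 ≤ K}).toReal|) atTop
        (𝓝 |0 - (μ {y : ℕ × ℝ | y.1 ≤ K}).toReal|) := (h2.sub_const _).abs
    have h6 := tendsto_nhds_unique h4 h5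
    have h7 : (μ {y : ℕ × ℝ | y.1 ≤ K}).toReal = 0 := by
      have : |0 - (μ {y : ℕ × ℝ | y.1 ≤ K}).toReal| = 0 := h6.symm
      rw [abs_eq_zero] at this
      linarith
    rcases (ENNReal.toReal_eq_zero_iff _).1 h7 with h | h
    · exact h
    · exact absurd h (measure_ne_top μ _)
  have huniv : μ Set.univ = 0 := by
    have : (Set.univ : Set (ℕ × ℝ)) = ⋃ K : ℕ, {y : ℕ × ℝ | y.1 ≤ K} := by
      ext y
      simp only [mem_univ, mem_iUnion, mem_ofPred_eq, true_iff]
      exact ⟨y.1, le_rfl⟩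
    rw [this]
    exact measure_iUnion_null hzero
  rw [measure_univ] at huniv
  exact one_ne_zero huniv

end Pool.Agent.Results.MP_b612d4_pr.Unstable
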